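import Pool.Agent.H502.XR.F7

/-!
# MP_493793_nt: the exact order of the largest sums in the classes with two and with three conditions

In the classical theory (Phillips, Graham–Kolesnik) an exponent pair `(k, l)` is a bound
`|∑ e(f(n))| ≤ C L^k N^l`, `L = y N^(-s) ≥ 1`, for the class `ClassP N P s y η` of all `f` whose
derivatives of the orders `1, ..., P` are within the relative error `η` of those of the model
`f' = y x^(-s)`. Put `F = y N^(1-s) = L N`, and let `M_P(N, F)` be the largest absolute value of a sum of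
`e(f(n))` over `N ≤ n ≤ N'`, `N ≤ N' ≤ 2N`, with `f` in this class.

**Result.** Let `0 < η ≤ 1/2`, `P ≥ 2`, and `size_P(N, F) = min (√F) (√N F^(1/(2P))) N`. For all `N ≥ N₀`,
`F ≥ N₀ N`:
(1) `M_P(N, F) ≥ c size_P(N, F)`, for every `P ≥ 2`;
(2) `M_P(N, F) ≤ C size_P(N, F)` if `P = 2`, or `P = 3`, or `F^(1 - 1/P) ≤ N`.

So the order of the largest sums is exactly `min (√F) N` for `P = 2`, exactly `min (√F) (√N F^(1/6)) N`
for `P = 3`, in the whole range `F ≥ N₀ N`, and exactly `√F` for every `P` and `N₀ N ≤ F ≤ N^(P/(P-1))`: more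
conditions on the derivatives do not help at all below `F = N^(P/(P-1))`, and the second (third) derivative
test gives the truth, up to a constant, for the class with two (three) conditions.

Proof. Upper bounds: the second and the third derivative test (the second one proved here from the
Kusmin–Landau inequality, the third one by one more differencing step). Lower bounds: let
`h ≍ N max (F^(-1/P)) (N / F)`; in a window of length `h` the perturbation may change the argument by a
smooth bump of size `1/2`. Let `d_j` be the difference of the sums over the `j`-th window with and without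
the bump. The mean square of `|d_j|` over the linear twists is `≍ h`. For `F ≤ ε₀ N²` the fourth moment over
linear twists and small quadratic twists (sums of two independent ones) is `≪ h²` near the model, without logarithm:
it is the sum of the squares of the autocorrelations of the window; for the small shifts (up to
`√(N²/F)`) they are small by Kusmin–Landau and partial summation, and by the symmetry of the box
`(u, w)` of two shifts what remains are the pairs of two small shifts (few) and the pairs of two large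
shifts, for which the average over the quadratic twists is small. For `F > ε₀ N²` (`P ≥ 3`) the fourth
moment is estimated trivially. So there is one choice of the twists with `∑ |d_j| ≫ (N / h) √h`, and for a
suitable set of windows the sum of the `d_j`, which is the difference of two of the sums in question, is of
this order.
-/

set_option autoImplicit false

namespace Pool.Agent.Results.MP_493793_nt.ExactOrder

/-- The sum of `e(f(n))` over the integers `N ≤ n ≤ N'`, where `e(x) = exp(2πix)`. -/
noncomputable def expSum (f : ℝ → ℝ) (N N' : ℝ) : ℂ :=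
  ∑ n ∈ Finset.Icc ⌈N⌉₊ ⌊N'⌋₊, Complex.exp (2 * (Real.pi : ℂ) * Complex.I * ((f (n : ℝ) : ℝ) : ℂ))

/-- `(s)_p = s (s + 1) ⋯ (s + p - 1)` -/
noncomputable def poch (s : ℝ) (p : ℕ) : ℝ := ∏ i ∈ Finset.range p, (s + i)

/-- The class `F(N, P, s, y, η)` of the theory of exponent pairs: `f` is smooth on `[N, 2N]` and its
derivatives of the orders `1, ..., P` are within the relative error `η` of those of the model with
`f' = y x ^ (-s)`. -/
def ClassP (N : ℝ) (P : ℕ) (s y η : ℝ) (f : ℝ → ℝ) : Prop :=
  ContDiffOn ℝ ((⊤ : ℕ∞) : WithTop ℕ∞) f (Set.Icc N (2 * N)) ∧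
  ∀ p < P, ∀ x ∈ Set.Icc N (2 * N),
    |iteratedDerivWithin (p + 1) f (Set.Icc N (2 * N)) x - (-1) ^ p * poch s p * y * x ^ (-s - (p : ℝ))| ≤
      η * (poch s p * y * x ^ (-s - (p : ℝ)))

/-- `min (√F) (√N * F^(1/(2P))) N` -/
noncomputable def size (P : ℕ) (N F : ℝ) : ℝ := min (min (√F) (√N * F ^ (1 / (2 * (P : ℝ))))) N

/-- All sums over `N ≤ n ≤ N'`, `N' ≤ 2N`, in the class are at most `V`. -/
def AllAtMost (N : ℝ) (P : ℕ) (s y η V : ℝ) : Prop :=
  ∀ f : ℝ → ℝ, ClassP N P s y η f → ∀ N' : ℝ, N ≤ N' → N' ≤ 2 * N → ‖expSum f N N'‖ ≤ V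

/-- Some sum over `N ≤ n ≤ N'`, `N' ≤ 2N`, in the class is at least `V`. -/
def SomeAtLeast (N : ℝ) (P : ℕ) (s y η V : ℝ) : Prop :=
  ∃ f : ℝ → ℝ, ClassP N P s y η f ∧ ∃ N' : ℝ, N ≤ N' ∧ N' ≤ 2 * N ∧ V ≤ ‖expSum f N N'‖

/-- **The largest sums in the class with `P` conditions have at least the order `size P N F`, and exactly
this order if `P = 2`, or `P = 3`, or `F^(1 - 1/P) ≤ N`.** -/
theorem result (P : ℕ) (hP : 2 ≤ P) (s η : ℝ) (hs : 0 < s) (hη : 0 < η) (hη2 : η ≤ 1 / 2) :
    ∃ c C N₀ : ℝ, 0 < c ∧ ∀ N y : ℝ, N₀ ≤ N → N₀ ≤ y * N ^ (-s) →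
      SomeAtLeast N P s y η (c * size P N (y * N ^ (1 - s))) ∧
      (P ≤ 3 ∨ (y * N ^ (1 - s)) ^ (1 - 1 / (P : ℝ)) ≤ N →
        AllAtMost N P s y η (C * size P N (y * N ^ (1 - s)))) := by
  have eF : ∀ {N : ℝ} (y s : ℝ), 0 < N → y * N ^ (1 - s) = y * N ^ (-s) * N := by
    intro N y s hN0
    rw [show (1 - s : ℝ) = -s + 1 by ring, Real.rpow_add hN0, Real.rpow_one, mul_assoc]
  obtain ⟨C, hC, hup⟩ := Pool.Agent.H502.XR.upper_final P hP s hs
  obtain ⟨c, hc, N₀, hN₀, hlo⟩ := Pool.Agent.H502.XR.lower_final P hP s η hs hη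
  refine ⟨c, C, N₀, hc, fun N y hN hL => ?_⟩
  rw [eF y s (by linarith)]
  exact ⟨hlo N y hN hL,
    fun hcase f hf N' h1 h2 => hup N y (by linarith) (by linarith) hcase η hη2 f hf N' h1 h2⟩

end Pool.Agent.Results.MP_493793_nt.ExactOrder
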