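import Pool.Agent.H502.XP.M8

/-!
# MP_493793_nt: the bound of the pair `(0, 0)` fails for `F = N^θ`, for every `θ > 1`

The disproof of the exponent pair conjecture for the class of the problem (all derivatives comparable
to those of a power, library: the frozen negation) uses functions with `F ≍ N^(3/2)`. One may ask
whether the bound `N^(1/2) F^ε` holds for other sizes of `F`, for instance for all `F ≥ N^A` with a
large `A`.

**Result.** It fails for all sizes.

(1) For every natural number `d ≥ 1` there are constants such that for all large `N` and all `F` with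
`N ≤ F ≤ c₀ N^(d+1)` some sum of the class is at least
`c₀ min (F^((d+2)/((d+1)(2d+1)))) (N F^(-d/((d+1)(2d+1))))`. For `F = N^(d+1/2)` this is
`c₀ N^(1/2 + 1/(2d+2))`. For `d = 1`, `F ≤ N^(3/2)` it is `c₀ √F`, the true order (second derivative test).

(2) For every `θ > 1` there is `δ > 0` such that for all large `N` some sum of the class with the
parameter `F = N^θ` is at least `N^(1/2 + δ)`.

(3) So for every `θ > 1` the bound of `(0, 0)` fails for the functions with the parameter `F = N^θ`.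

Proof. Let `B = 2^d d!`. If `√m` is close to an integer `μ`, then `B m^(d+1/2)` is close to the value of
its Taylor polynomial of degree `d` at `μ²`, which is an integer; the error is
`≪ μ^d |√m - μ|^(d+1)`. So `e(B m^(d+1/2))` is close to `1` for all `m ≤ 2M` with
`|√m - μ| ≤ δ₀ = c M^(-d/(2d+2))` for some `μ`. With the Fejér kernel one isolates these `m`: the mean
value of the sums of `e(B m^(d+1/2) + (k - l) √m)` over `0 ≤ k, l < K`, `K ≍ 1 / δ₀`, is the sum of
`e(B m^(d+1/2)) W(√m)` with a kernel `W ≥ 0` concentrated on `|√m - μ| ≪ 1 / K`; block by block its real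
part is bounded from below. Taking only the multiples `m = a n` or, by means of additive characters,
`m = n / b` for the multiples `n` of `b`, one gets all sizes `F`. The functions
`T x^(d+1/2) + U x^(1/2) + V x` need not be admissible (for derivatives of very high order the second
term dominates the first one and may have the opposite sign); the term `± (N / x)^2 / 100`, which is
negligible at the integers `n ∈ [N, 2N]`, makes them admissible.
-/

set_option autoImplicit false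

namespace Pool.Agent.Results.MP_493793_nt.FailureAtEveryPower

/-- `f` is admissible at scale `N` with the parameter `F` and the constants `c`, `C`. -/
def Admissible (c C : ℕ → ℝ) (N F : ℝ) (f : ℝ → ℝ) : Prop :=
  ContDiffOn ℝ (⊤ : ℕ∞) f (Set.Icc N (2 * N)) ∧
  ∀ j : ℕ, ∀ x ∈ Set.Icc N (2 * N),
    c j * F / N ^ j ≤ |iteratedDerivWithin j f (Set.Icc N (2 * N)) x| ∧
    |iteratedDerivWithin j f (Set.Icc N (2 * N)) x| ≤ C j * F / N ^ j

/-- The sum of `e(f(n))` over the integers `N ≤ n ≤ N'`, where `e(x) = exp(2πix)`. -/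
noncomputable def expSum (f : ℝ → ℝ) (N N' : ℝ) : ℂ :=
  ∑ n ∈ Finset.Icc ⌈N⌉₊ ⌊N'⌋₊, Complex.exp (2 * (Real.pi : ℂ) * Complex.I * ((f (n : ℝ) : ℝ) : ℂ))

/-- **(1) Large sums for all `F`; (2) sums of size `N^(1/2+δ)` with `F = N^θ` for every `θ > 1`; (3) the
bound of the pair `(0, 0)` fails for `F = N^θ`, for every `θ > 1`.** -/
theorem result :
    (∀ d : ℕ, 1 ≤ d → ∃ c C : ℕ → ℝ, (∀ j, 0 < c j) ∧ (∀ j, 0 < C j) ∧ ∃ c₀ : ℝ, 0 < c₀ ∧
      ∃ N₀ : ℝ, ∀ N F : ℝ, N₀ ≤ N → N ≤ F → F ≤ c₀ * N ^ (d + 1) →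
        ∃ f : ℝ → ℝ, Admissible c C N F f ∧ ∃ N' : ℝ, N ≤ N' ∧ N' ≤ 2 * N ∧
          c₀ * min (F ^ (((d : ℝ) + 2) / ((d + 1) * (2 * d + 1))))
            (N * F ^ (-((d : ℝ) / ((d + 1) * (2 * d + 1))))) ≤ ‖expSum f N N'‖) ∧
    (∀ θ : ℝ, 1 < θ → ∃ δ : ℝ, 0 < δ ∧ ∃ c C : ℕ → ℝ, (∀ j, 0 < c j) ∧ (∀ j, 0 < C j) ∧
      ∃ N₀ : ℝ, ∀ N : ℝ, N₀ ≤ N → ∃ f : ℝ → ℝ, Admissible c C N (N ^ θ) f ∧
        ∃ N' : ℝ, N ≤ N' ∧ N' ≤ 2 * N ∧ N ^ (1 / 2 + δ) ≤ ‖expSum f N N'‖) ∧
    (∀ θ : ℝ, 1 < θ → ¬ (∀ ε : ℝ, 0 < ε → ∀ c C : ℕ → ℝ, (∀ j, 0 < c j) → (∀ j, 0 < C j) →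
      ∃ K : ℝ, ∀ N N' : ℝ, ∀ f : ℝ → ℝ, 2 ≤ N → N ≤ N' → N' ≤ 2 * N → Admissible c C N (N ^ θ) f →
        ‖expSum f N N'‖ ≤ K * N ^ (1 / 2 : ℝ) * (N ^ θ) ^ ε)) :=
  ⟨Pool.Agent.H502.XP.main, fun _ h => Pool.Agent.H502.XP.at_power h,
    fun _ h => Pool.Agent.H502.XP.fails h⟩

end Pool.Agent.Results.MP_493793_nt.FailureAtEveryPower
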