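import Pool.Agent.H502.XQ.D13

/-!
# MP_493793_nt: exponent pairs with finitely many conditions on the derivatives

In the classical theory (Phillips, Graham–Kolesnik) an exponent pair `(k, l)` is a bound
`|∑ e(f(n))| ≤ C L^k N^l`, `L = y N^(-s) ≥ 1`, for the class `ClassP N P s y η` of all `f` whose
derivatives of the orders `1, ..., P` are within the relative error `η` of those of the model
`f' = y x^(-s)`, where `P` and `η` may depend on `(k, l)` and `s`. How many conditions `P` does the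
exponent pair conjecture `(ε, 1/2 + ε)` need?

**Result.** (1) Let `P ≥ 1`. For EVERY real function `f₀`, all large `N` and all `G ≥ N₀ N` there is a
smooth perturbation `w` with `|w^(p)| ≤ G N^(-p)` on `[N, 2N]` for all `p ≤ P` such that a sum of
`e(f₀(n) + w(n))` over `N ≤ n ≤ N'` has size at least `c min (√G) (√N G^(1/(2P))) N / log N`, and without
the logarithm if `G ≥ N₀ N²`.
(2) In particular there are sums of this size, with `G = F`, in the class `ClassP N P s y η`,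
`F = y N^(1-s)`, for all `F ≥ N₀ N`.
(3) A pair `(k, l)` which is valid in the class with `P` conditions (for some `s > 0`, some `η > 0`)
satisfies `(P - 1) k + l ≥ 1` and `k + (P - 1) (l - 1/2) ≥ 1/2`. So `(ε, 1/2 + ε)` needs `P ≥ 1/(2ε)`.
(4) A bound `C N^(1/2) F^θ` for the functions of the class with `F = N^t` has
`θ ≥ min (1/2 - 1/(2t)) (1/(2P)) (1/(2t))`; for `t = 2` and `P ≥ 2` this is `1/(2P)`.

For `P = 2` and `P = 3` the sizes in (2) are, up to the logarithm, the upper bounds of the classical second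
and third derivative tests; for `P = 3` and `F ≥ N₀ N²` the order is exact.

Proof. Let `h ≍ N max (G^(-1/P)) (N / G)`. In a window of length `h` the perturbation may change the
argument by a smooth bump of size `1/2`. The difference `d_j` of the sums over the `j`-th window with and
without the bump is an exponential sum with coefficients `e(f₀(n)) u(n)`; by the second and the fourth
moment (over the linear terms `α x` and the small quadratic terms `β x²`, which are also allowed in the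
perturbation; the fourth moment counts solutions of `x₁ + x₂ = y₁ + y₂` with `|x₁² + x₂² - y₁² - y₂²|`
small) there is one choice `(α, β)` for which the sum of `|d_j|` over all windows is
`≫ (N / h) √h / log h` (`≫ (N / h) √h` if all `β ∈ [0, 1]` are allowed, that is if `G ≥ N₀ N²`). For a suitable set `S` of windows `|∑_{j ∈ S} d_j| ≥ (1/4) ∑ |d_j|`, and
`∑_{j ∈ S} d_j` is the difference of two of the sums in question.
-/

set_option autoImplicit false

namespace Pool.Agent.Results.MP_493793_nt.FinitelyManyDerivatives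

/-- The sum of `e(f(n))` over the integers `N ≤ n ≤ N'`, where `e(x) = exp(2πix)`. -/
noncomputable def expSum (f : ℝ → ℝ) (N N' : ℝ) : ℂ :=
  ∑ n ∈ Finset.Icc ⌈N⌉₊ ⌊N'⌋₊, Complex.exp (2 * (Real.pi : ℂ) * Complex.I * ((f (n : ℝ) : ℝ) : ℂ))

/-- `(s)_p = s (s + 1) ⋯ (s + p - 1)` -/
noncomputable def poch (s : ℝ) (p : ℕ) : ℝ := ∏ i ∈ Finset.range p, (s + i)

/-- The class `F(N, P, s, y, η)` of the theory of exponent pairs: `f` is smooth on `[N, 2N]` and its
derivatives of the orders `1, ..., P` are within the relative error `η` of those of the model with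
`f' = y x ^ (-s)`. -/
def ClassP (N : ℝ) (P : ℕ) (s y η : ℝ) (f : ℝ → ℝ) : Prop :=
  ContDiffOn ℝ ((⊤ : ℕ∞) : WithTop ℕ∞) f (Set.Icc N (2 * N)) ∧
  ∀ p < P, ∀ x ∈ Set.Icc N (2 * N),
    |iteratedDerivWithin (p + 1) f (Set.Icc N (2 * N)) x - (-1) ^ p * poch s p * y * x ^ (-s - (p : ℝ))| ≤
      η * (poch s p * y * x ^ (-s - (p : ℝ)))

/-- `min (√F) (√N F^(1/(2P))) N` -/
noncomputable def size (P : ℕ) (N F : ℝ) : ℝ := min (min (√F) (√N * F ^ (1 / (2 * (P : ℝ))))) N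

/-- **(1) Large sums near every function; (2) large sums in the class with `P` conditions; (3) necessary
conditions for the pairs valid in this class; (4) necessary condition for a bound `N^(1/2) F^θ`.** -/
theorem result :
    (∀ P : ℕ, 1 ≤ P → ∃ c : ℝ, 0 < c ∧ ∃ N₀ : ℝ, ∀ N G : ℝ, N₀ ≤ N → N₀ * N ≤ G → ∀ f₀ : ℝ → ℝ,
      ∃ w : ℝ → ℝ, ContDiff ℝ ((⊤ : ℕ∞) : WithTop ℕ∞) w ∧
        (∀ p ≤ P, ∀ x ∈ Set.Icc N (2 * N), |iteratedDeriv p w x| ≤ G / N ^ p) ∧
        ∃ N' : ℝ, N ≤ N' ∧ N' ≤ 2 * N ∧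
          c * size P N G / Real.log N ≤ ‖expSum (fun x => f₀ x + w x) N N'‖ ∧
          (N₀ * N ^ 2 ≤ G → c * size P N G ≤ ‖expSum (fun x => f₀ x + w x) N N'‖)) ∧
    (∀ P : ℕ, 1 ≤ P → ∀ s η : ℝ, 0 < s → 0 < η → ∃ c : ℝ, 0 < c ∧ ∃ N₀ : ℝ, ∀ N y : ℝ, N₀ ≤ N →
      N₀ ≤ y * N ^ (-s) → ∃ f : ℝ → ℝ, ClassP N P s y η f ∧ ∃ N' : ℝ, N ≤ N' ∧ N' ≤ 2 * N ∧
        c * size P N (y * N ^ (1 - s)) / Real.log N ≤ ‖expSum f N N'‖ ∧
        (N₀ * N ≤ y * N ^ (-s) → c * size P N (y * N ^ (1 - s)) ≤ ‖expSum f N N'‖)) ∧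
    (∀ P : ℕ, 2 ≤ P → ∀ s η k l C N₁ : ℝ, 0 < s → 0 < η →
      (∀ N y : ℝ, N₁ ≤ N → N₁ ≤ y * N ^ (-s) → ∀ f : ℝ → ℝ, ClassP N P s y η f → ∀ N' : ℝ, N ≤ N' →
        N' ≤ 2 * N → ‖expSum f N N'‖ ≤ C * (y * N ^ (-s)) ^ k * N ^ l) →
      1 ≤ ((P : ℝ) - 1) * k + l ∧ 1 / 2 ≤ k + ((P : ℝ) - 1) * (l - 1 / 2)) ∧
    (∀ P : ℕ, 1 ≤ P → ∀ s η t θ C N₁ : ℝ, 0 < s → 0 < η → 1 < t →
      (∀ N : ℝ, N₁ ≤ N → ∀ f : ℝ → ℝ, ClassP N P s (N ^ (t - 1 + s)) η f → ∀ N' : ℝ, N ≤ N' →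
        N' ≤ 2 * N → ‖expSum f N N'‖ ≤ C * N ^ (1 / 2 : ℝ) * (N ^ t) ^ θ) →
      min (min (1 / 2 - 1 / (2 * t)) (1 / (2 * (P : ℝ)))) (1 / (2 * t)) ≤ θ) := by
  refine ⟨?_, ?_, ?_, ?_⟩
  · intro P hP
    obtain ⟨c, hc, N₀, -, h⟩ := Pool.Agent.H502.XQ.main2 P hP 1 one_pos
    refine ⟨c, hc, N₀, fun N G hN hG f₀ => ?_⟩
    obtain ⟨w, hw, hwd, -, N', h1, h2, h3, h4⟩ := h N G hN hG f₀
    refine ⟨w, hw, fun p hp x hx => ?_, N', h1, h2, h3, h4⟩
    have := hwd p hp x hx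
    rwa [one_mul] at this
  · intro P hP s η hs hη
    obtain ⟨c, hc, N₀, hN₀, h⟩ := Pool.Agent.H502.XQ.class_main2 P hP s η hs hη
    refine ⟨c, hc, N₀, fun N y hN hL => ?_⟩
    have hN0 : 0 < N := by linarith
    have e : y * N ^ (1 - s) = y * N ^ (-s) * N := by
      rw [show (1 - s : ℝ) = -s + 1 by ring, Real.rpow_add hN0, Real.rpow_one, mul_assoc]
    rw [e]
    obtain ⟨f, hf, -, hN'⟩ := h N y hN hL
    exact ⟨f, hf, hN'⟩
  · intro P hP s η k l C N₁ hs hη h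
    exact Pool.Agent.H502.XQ.pair_necessary hP hs hη h
  · intro P hP s η t θ C N₁ hs hη ht h
    exact Pool.Agent.H502.XQ.half_bound hP hs hη ht h

end Pool.Agent.Results.MP_493793_nt.FinitelyManyDerivatives
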