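import Pool.Agent.H502.XQ.D14

/-!
# MP_493793_nt: the loss `F^ε` cannot be replaced by a fixed function of subpolynomial growth

The conjecture allows a constant `K` depending on `ε` and on the sequence of the constants which control
the derivatives. Could there be one function `g(F) = F^(o(1))`, for instance a power of the logarithm, such
that the bound `K N^(1/2) g(F)` holds for every sequence of constants?

**Result.** No, if for the derivatives of high order only upper bounds are required.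

(1) Let `δ > 0`, `A`, `η > 0`, `P₀` be given and let `g` be any function with `g(F) ≤ F^ε` for all `ε > 0` and
all `F ≥ X(ε)`. There are constants `C_p` and `N₀` such that for all `N ≥ N₀`, all `F` with
`N^(1+δ) ≤ F ≤ N^A` and EVERY real function `f₀` there is a smooth perturbation `w` with
`|w^(p)| ≤ η F / N^p` on `[N, 2N]` for all `p ≤ P₀` and `|w^(p)| ≤ C_p F / N^p` for ALL `p ≥ 0` such that a sum
of `e(f₀(n) + w(n))` over `N ≤ n ≤ N'` has size at least `√N g(F)`.

(2) In particular there are sums of this size in the class of all `f` whose derivatives of the orders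
`1, ..., P₀` are within the relative error `η` of those of the model with `f' = y x^(-s)` and all whose
derivatives satisfy `|f^(p)| ≤ C_p F / N^p`, `F = y N^(1-s)`.

Proof. With `P` conditions there are sums of size `c_P √N F^(1/(2P)) / log N` near every function
(FinitelyManyDerivatives). One lets `P = P(N)` tend to infinity so slowly that `c_P F^(1/(2P)) / log N ≥ g(F)`.
The perturbation consists of a quadratic polynomial and of bumps of length at least one, so its derivatives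
of the order `p` are at most `η F / N^p + A_p` with absolute constants `A_p`; for the finitely many scales
`N` (up to a bound depending on `p`) with `P(N) < p` this is at most `C_p F / N^p`.
-/

set_option autoImplicit false

namespace Pool.Agent.Results.MP_493793_nt.NoFixedLoss

/-- The sum of `e(f(n))` over the integers `N ≤ n ≤ N'`, where `e(x) = exp(2πix)`. -/
noncomputable def expSum (f : ℝ → ℝ) (N N' : ℝ) : ℂ :=
  ∑ n ∈ Finset.Icc ⌈N⌉₊ ⌊N'⌋₊, Complex.exp (2 * (Real.pi : ℂ) * Complex.I * ((f (n : ℝ) : ℝ) : ℂ))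

/-- `(s)_p = s (s + 1) ⋯ (s + p - 1)` -/
noncomputable def poch (s : ℝ) (p : ℕ) : ℝ := ∏ i ∈ Finset.range p, (s + i)

/-- The class `F(N, P, s, y, η)` of the theory of exponent pairs: `f` is smooth on `[N, 2N]` and its
derivatives of the orders `1, ..., P` are within the relative error `η` of those of the model with
`f' = y x ^ (-s)`. -/
def ClassP (N : ℝ) (P : ℕ) (s y η : ℝ) (f : ℝ → ℝ) : Prop :=
  ContDiffOn ℝ ((⊤ : ℕ∞) : WithTop ℕ∞) f (Set.Icc N (2 * N)) ∧
  ∀ p < P, ∀ x ∈ Set.Icc N (2 * N),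
    |iteratedDerivWithin (p + 1) f (Set.Icc N (2 * N)) x - (-1) ^ p * poch s p * y * x ^ (-s - (p : ℝ))| ≤
      η * (poch s p * y * x ^ (-s - (p : ℝ)))

/-- **Near every function, and in the class of the theory of exponent pairs, with upper bounds for all the
derivatives, the sums are not bounded by `√N g(F)`, for any fixed `g` of subpolynomial growth.** -/
theorem result :
    (∀ δ A η : ℝ, ∀ P₀ : ℕ, 0 < δ → 0 < η → ∀ g : ℝ → ℝ,
      (∀ ε : ℝ, 0 < ε → ∃ X : ℝ, ∀ x : ℝ, X ≤ x → g x ≤ x ^ ε) →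
      ∃ C : ℕ → ℝ, ∃ N₀ : ℝ, ∀ N F : ℝ, N₀ ≤ N → N ^ (1 + δ) ≤ F → F ≤ N ^ A → ∀ f₀ : ℝ → ℝ,
        ∃ w : ℝ → ℝ, ContDiff ℝ ((⊤ : ℕ∞) : WithTop ℕ∞) w ∧
        (∀ p ≤ P₀, ∀ x ∈ Set.Icc N (2 * N), |iteratedDeriv p w x| ≤ η * F / N ^ p) ∧
        (∀ p : ℕ, ∀ x ∈ Set.Icc N (2 * N), |iteratedDeriv p w x| ≤ C p * F / N ^ p) ∧
        ∃ N' : ℝ, N ≤ N' ∧ N' ≤ 2 * N ∧ √N * g F ≤ ‖expSum (fun x => f₀ x + w x) N N'‖) ∧
    (∀ δ A s η : ℝ, ∀ P₀ : ℕ, 0 < δ → 0 < s → 0 < η → ∀ g : ℝ → ℝ,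
      (∀ ε : ℝ, 0 < ε → ∃ X : ℝ, ∀ x : ℝ, X ≤ x → g x ≤ x ^ ε) →
      ∃ C : ℕ → ℝ, ∃ N₀ : ℝ, ∀ N y : ℝ, N₀ ≤ N → N ^ (1 + δ) ≤ y * N ^ (1 - s) → y * N ^ (1 - s) ≤ N ^ A →
        ∃ f : ℝ → ℝ, ClassP N P₀ s y η f ∧
        (∀ p : ℕ, ∀ x ∈ Set.Icc N (2 * N), |iteratedDerivWithin (p + 1) f (Set.Icc N (2 * N)) x| ≤
          C p * (y * N ^ (1 - s)) / N ^ (p + 1)) ∧
        ∃ N' : ℝ, N ≤ N' ∧ N' ≤ 2 * N ∧ √N * g (y * N ^ (1 - s)) ≤ ‖expSum f N N'‖) := by
  refine ⟨?_, ?_⟩
  · intro δ A η P₀ hδ hη g hg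
    obtain ⟨C, N₀, -, h⟩ := Pool.Agent.H502.XQ.smooth_every δ A η P₀ hδ hη g hg
    exact ⟨C, N₀, h⟩
  · intro δ A s η P₀ hδ hs hη g hg
    exact Pool.Agent.H502.XQ.smooth_class2 δ A s η P₀ hδ hs hη g hg

end Pool.Agent.Results.MP_493793_nt.NoFixedLoss
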